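import Pool.Agent.Helper237.P3.Pot
import Pool.Agent.Helper237.P3.One
import Pool.Agent.Helper237.P3.Two
import Pool.Agent.Helper237.PF.MinPD

set_option autoImplicit false

open MeasureTheory Metric

namespace Pool.Agent.Results.MP_3f9d7d_an.CubicDiscrete

/-- The unit sphere `S^(d-1)` of `ℝ^d`. -/
abbrev Sph (d : ℕ) : Type := sphere (0 : EuclideanSpace ℝ (Fin d)) 1

/-- The `p`-frame energy `∫∫ |⟨x, y⟩|^p dμ(x) dμ(y)` of a measure on `S^(d-1)`. -/
noncomputable def frameEnergy (d : ℕ) (p : ℝ) (μ : Measure (Sph d)) : ℝ :=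
  ∫ x : Sph d, ∫ y : Sph d, |inner ℝ (x : EuclideanSpace ℝ (Fin d)) y| ^ p ∂μ ∂μ

/-- Minimizers of the `p`-frame energy over all Borel probability measures on `S^(d-1)`. -/
def IsMinimizer (d : ℕ) (p : ℝ) (μ : Measure (Sph d)) : Prop :=
  IsProbabilityMeasure μ ∧
    ∀ ν : Measure (Sph d), IsProbabilityMeasure ν → frameEnergy d p μ ≤ frameEnergy d p ν

theorem energy_pos {d : ℕ} (μ : Measure (Sph (d + 1))) (hμ : IsMinimizer (d + 1) 3 μ) :
    0 < frameEnergy (d + 1) 3 μ := by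
  have hprob := hμ.1
  have hne : μ.support.Nonempty := Measure.nonempty_support (IsProbabilityMeasure.ne_zero μ)
  obtain ⟨x, hx⟩ := hne
  have hE : ∫ y : Sph (d + 1), |inner ℝ (x : EuclideanSpace ℝ (Fin (d + 1))) y| ^ (3 : ℝ) ∂μ =
      frameEnergy (d + 1) 3 μ :=
    PFrame3.potential_eq (p := 3) (by norm_num) (μ := μ) ⟨hμ.1, fun ν hν => hμ.2 ν hν⟩ x hx
  rw [← hE]
  have hcont : Continuous fun y : Sph (d + 1) =>
      |inner ℝ (x : EuclideanSpace ℝ (Fin (d + 1))) y| ^ (3 : ℝ) := by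
    refine Continuous.rpow_const ?_ fun _ => Or.inr (by norm_num)
    exact (continuous_const.inner continuous_subtype_val).abs
  have hint : Integrable (fun y : Sph (d + 1) =>
      |inner ℝ (x : EuclideanSpace ℝ (Fin (d + 1))) y| ^ (3 : ℝ)) μ :=
    hcont.integrable_of_hasCompactSupport (HasCompactSupport.of_compactSpace _)
  rw [integral_pos_iff_support_of_nonneg (fun y => by positivity) hint]
  have hopen : IsOpen (Function.support fun y : Sph (d + 1) =>
      |inner ℝ (x : EuclideanSpace ℝ (Fin (d + 1))) y| ^ (3 : ℝ)) := hcont.isOpen_support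
  refine (Measure.mem_support_iff_forall x).1 hx _ (hopen.mem_nhds ?_)
  rw [Function.mem_support, real_inner_self_eq_norm_sq]
  have h1 : ‖(x : EuclideanSpace ℝ (Fin (d + 1)))‖ = 1 := by simp
  rw [h1]; norm_num

/-- In every dimension, every minimizer of the `3`-frame energy is discrete. -/
theorem result (d : ℕ) (hd : 2 ≤ d) (μ : Measure (Sph d)) (hμ : IsMinimizer d 3 μ) :
    μ.support.Finite := by
  obtain ⟨k, rfl⟩ : ∃ k, d = k + 1 := ⟨d - 1, by omega⟩
  have hprob := hμ.1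
  by_contra hinf
  have hmin3 : PFrame3.IsMinimizer k 3 μ := ⟨hμ.1, fun ν hν => hμ.2 ν hν⟩
  have hmin : PFrame.IsMinimizer k 3 μ := ⟨hμ.1, fun ν hν => hμ.2 ν hν⟩
  set S : Set (EuclideanSpace ℝ (Fin (k + 1))) := Subtype.val '' μ.support with hS
  have hSs : S ⊆ sphere 0 1 := by rintro _ ⟨x, _, rfl⟩; exact x.2
  have hSinf : S.Infinite := Set.Infinite.image Subtype.val_injective.injOn hinf
  have hPD : ∀ (s : Finset (EuclideanSpace ℝ (Fin (k + 1))))
      (a : EuclideanSpace ℝ (Fin (k + 1)) → ℝ), (↑s ⊆ S) →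
      0 ≤ ∑ x ∈ s, ∑ y ∈ s, a x * a y * |inner ℝ x y| ^ 3 := by
    intro s a hs
    have h := PFrame.minimizer_PD (p := 3) (by norm_num) hmin s a hs
    convert h using 6 with x _ y _
    norm_cast
  obtain ⟨T, hTS, hTinf, hTpos, hside⟩ :=
    PFrame3.one_sided (n := 3) (by decide) S hSs hSinf hPD
  obtain ⟨x, hxT, x', hx'T, hne⟩ := hTinf.nontrivial
  obtain ⟨X, hX, rfl⟩ := hTS hxT
  obtain ⟨X', hX', rfl⟩ := hTS hx'T
  have hcv : ∀ z : Sph (k + 1), (∫ y : Sph (k + 1),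
      |inner ℝ (z : EuclideanSpace ℝ (Fin (k + 1))) y| ^ (3 : ℝ) ∂μ) =
      ∫ y : Sph (k + 1), |inner ℝ (z : EuclideanSpace ℝ (Fin (k + 1))) y| ^ 3 ∂μ := by
    intro z
    refine integral_congr_ae (Filter.Eventually.of_forall fun y => ?_)
    show |inner ℝ (z : EuclideanSpace ℝ (Fin (k + 1))) y| ^ (3 : ℝ) =
      |inner ℝ (z : EuclideanSpace ℝ (Fin (k + 1))) y| ^ 3
    norm_cast
  have hE : frameEnergy (k + 1) 3 μ = PFrame3.frameEnergy k 3 μ := rfl
  refine PFrame3.two_point μ (frameEnergy (k + 1) 3 μ) (energy_pos μ hμ) ?_ X X' ?_ ?_ ?_ ?_ ?_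
  · intro z
    rw [← hcv z, hE]
    exact PFrame3.potential_ge (by norm_num) hmin3 z
  · intro h
    exact hne (congrArg Subtype.val h)
  · exact hTpos _ hxT _ hx'T
  · rw [← hcv X, hE]
    exact PFrame3.potential_eq (by norm_num) hmin3 X hX
  · rw [← hcv X', hE]
    exact PFrame3.potential_eq (by norm_num) hmin3 X' hX'
  · filter_upwards [Measure.support_mem_ae (μ := μ)] with y hy
    rcases hside y ⟨y, hy, rfl⟩ with h | h
    · exact mul_nonneg (h _ hxT) (h _ hx'T)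
    · exact mul_nonneg_of_nonpos_of_nonpos (h _ hxT) (h _ hx'T)

end Pool.Agent.Results.MP_3f9d7d_an.CubicDiscrete
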